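import Pool.Agent.Helper85.QT.St2

/-!
# FLT: flat area
-/

set_option autoImplicit false

open MeasureTheory Matrix Set Topology
open scoped ENNReal ComplexConjugate

namespace Pool.Agent.Helper37.QT

open Pool.Agent.Helper85.QT Pool.Agent.Helper86.QA

/-- the real determinant of the multiplication by a complex number -/
theorem det_flt (c : ℂ) :
    ((ContinuousLinearMap.toSpanSingleton ℂ c : ℂ →L[ℂ] ℂ).restrictScalars ℝ).det = ‖c‖ ^ 2 := by
  rw [ContinuousLinearMap.det, ← LinearMap.det_toMatrix Complex.basisOneI, Matrix.det_fin_two,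
    ← Complex.normSq_eq_norm_sq, Complex.normSq_apply]
  simp [LinearMap.toMatrix_apply]

theorem null_flt (p : ℂ) (hp : p ≠ 0) : volume {η : ℂ | (η / p).im = 0} = 0 := by
  let L : ℂ →ₗ[ℝ] ℝ := Complex.imLm ∘ₗ (LinearMap.mulRight ℝ p⁻¹)
  have h1 : {η : ℂ | (η / p).im = 0} = (LinearMap.ker L : Set ℂ) := by
    ext η
    simp only [mem_ofPred_eq, SetLike.mem_coe, LinearMap.mem_ker, L, LinearMap.comp_apply,
      LinearMap.mulRight_apply, div_eq_mul_inv]
    rfl
  rw [h1]
  apply Measure.addHaar_submodule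
  intro h2
  have h3 : Complex.I * p ∈ LinearMap.ker L := by rw [h2]; trivial
  rw [LinearMap.mem_ker] at h3
  have h4 : (Complex.I * p * p⁻¹).im = 0 := h3
  rw [mul_assoc, mul_inv_cancel₀ hp, mul_one] at h4
  simp at h4

theorem hFLT : Pool.Agent.Helper85.QT.StFLT := by
  intro lam p hlam hp f hf
  set S : Set ℂ := {η : ℂ | η / p ∈ Complex.slitPlane} with hS
  have hSo : IsOpen S := Complex.isOpen_slitPlane.preimage (continuous_id.div_const p)
  have hSm : MeasurableSet S := hSo.measurableSet
  have hSn : volume Sᶜ = 0 := by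
    refine measure_mono_null ?_ (null_flt p hp)
    intro η hη
    rw [hS, mem_compl_iff, mem_ofPred_eq, Complex.mem_slitPlane_iff, not_or] at hη
    exact not_not.1 hη.2
  set g : ℂ → ℂ := fun η => Complex.log (η / p) / lam with hg
  have hne : ∀ η ∈ S, η ≠ 0 := by
    rintro η hη rfl
    rw [hS, mem_ofPred_eq, zero_div] at hη
    exact Complex.zero_notMem_slitPlane hη
  have hder : ∀ η ∈ S, HasFDerivWithinAt g
      ((ContinuousLinearMap.toSpanSingleton ℂ (1 / (lam * η)) : ℂ →L[ℂ] ℂ).restrictScalars ℝ) S η := by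
    intro η hη
    have hη0 := hne η hη
    have h1 : HasDerivAt (fun η : ℂ => η / p) (1 / p) η := (hasDerivAt_id η).div_const p
    have h2 : HasDerivAt g ((η / p)⁻¹ * (1 / p) / lam) η := by
      have h3 := (Complex.hasDerivAt_log (z := η / p) hη).comp η h1
      exact h3.div_const lam
    have h4 : (η / p)⁻¹ * (1 / p) / lam = 1 / (lam * η) := by
      field_simp
    rw [h4] at h2
    exact (h2.hasFDerivAt.restrictScalars ℝ).hasFDerivWithinAt
  have hinj : InjOn g S := by
    intro a ha b hb hab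
    have h1 : Complex.log (a / p) = Complex.log (b / p) := by
      have : Complex.log (a / p) / lam = Complex.log (b / p) / lam := hab
      exact (div_left_inj' hlam).1 this
    have h2 : a / p = b / p := by
      rw [← Complex.exp_log (div_ne_zero (hne a ha) hp), h1,
        Complex.exp_log (div_ne_zero (hne b hb) hp)]
    exact (div_left_inj' hp).1 h2
  have key := lintegral_image_eq_lintegral_abs_det_fderiv_mul volume hSm hder hinj f
  have h1 : ∫⁻ η, f (Complex.log (η / p) / lam) * ENNReal.ofReal (1 / (‖lam‖ ^ 2 * ‖η‖ ^ 2)) =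
      ∫⁻ η in S, f (Complex.log (η / p) / lam) *
        ENNReal.ofReal (1 / (‖lam‖ ^ 2 * ‖η‖ ^ 2)) := by
    rw [← lintegral_add_compl _ hSm, setLIntegral_measure_zero _ _ hSn, add_zero]
  rw [h1]
  calc ∫⁻ η in S, f (Complex.log (η / p) / lam) * ENNReal.ofReal (1 / (‖lam‖ ^ 2 * ‖η‖ ^ 2))
      = ∫⁻ ζ in g '' S, f ζ := by
        rw [key]
        refine setLIntegral_congr_fun hSm fun η hη => ?_
        show f (Complex.log (η / p) / lam) * ENNReal.ofReal (1 / (‖lam‖ ^ 2 * ‖η‖ ^ 2)) = _
        rw [det_flt, abs_of_nonneg (by positivity), mul_comm]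
        congr 2
        rw [norm_div, norm_one, norm_mul, div_pow, one_pow, mul_pow]
    _ ≤ ∫⁻ ζ, f ζ := setLIntegral_le_lintegral _ _

end Pool.Agent.Helper37.QT
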