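import Pool.Agent.Helper85.QT.St1

/-!
# SH4: the fibres over `ξ` have bounded volume
-/

set_option autoImplicit false

open MeasureTheory Matrix Set Topology
open scoped ENNReal ComplexConjugate

namespace Pool.Agent.Helper37.QT

open Pool.Agent.Helper85.QT Pool.Agent.Helper86.QA

/-- the truncated cone -/
def Cn (ξ : ℂ) (a b : ℝ) : Set Pt := {x : Pt | a ≤ x.2 ∧ x.2 ≤ b ∧ ‖x.1 - ξ‖ ≤ 2 * x.2}

theorem cn_meas (ξ : ℂ) (a b : ℝ) : MeasurableSet (Cn ξ a b) := by
  have h1 : IsClosed {x : Pt | a ≤ x.2} := isClosed_le continuous_const continuous_snd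
  have h2 : IsClosed {x : Pt | x.2 ≤ b} := isClosed_le continuous_snd continuous_const
  have h3 : IsClosed {x : Pt | ‖x.1 - ξ‖ ≤ 2 * x.2} :=
    isClosed_le (continuous_fst.sub continuous_const).norm (continuous_const.mul continuous_snd)
  have h : Cn ξ a b = {x : Pt | a ≤ x.2} ∩ ({x : Pt | x.2 ≤ b} ∩ {x : Pt | ‖x.1 - ξ‖ ≤ 2 * x.2}) :=
    rfl
  rw [h]
  exact (h1.inter (h2.inter h3)).measurableSet

theorem slice (ξ : ℂ) (a b t : ℝ) (ht : 0 < t) :
    ∫⁻ z : ℂ, (Cn ξ a b).indicator (fun _ => (1 : ℝ≥0∞)) (z, t) =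
      (Icc a b).indicator (fun t => ENNReal.ofReal (4 * Real.pi * t ^ 2)) t := by
  by_cases h : t ∈ Icc a b
  · have h1 : (fun z : ℂ => (Cn ξ a b).indicator (fun _ => (1 : ℝ≥0∞)) (z, t)) =
        (Metric.closedBall ξ (2 * t)).indicator (fun _ => (1 : ℝ≥0∞)) := by
      funext z
      by_cases hz : z ∈ Metric.closedBall ξ (2 * t)
      · rw [indicator_of_mem hz, indicator_of_mem]
        rw [Metric.mem_closedBall, dist_eq_norm] at hz
        exact ⟨h.1, h.2, hz⟩
      · rw [indicator_of_notMem hz, indicator_of_notMem]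
        intro h2
        apply hz
        rw [Metric.mem_closedBall, dist_eq_norm]
        exact h2.2.2
    rw [h1, lintegral_indicator Metric.isClosed_closedBall.measurableSet, setLIntegral_one,
      Complex.volume_closedBall, indicator_of_mem h, ← ENNReal.ofReal_pow (by positivity),
      show 4 * Real.pi * t ^ 2 = (2 * t) ^ 2 * Real.pi by ring,
      ENNReal.ofReal_mul (by positivity)]
    congr 1
    rw [← NNReal.coe_real_pi, ENNReal.ofReal_coe_nnreal]
  · have h1 : (fun z : ℂ => (Cn ξ a b).indicator (fun _ => (1 : ℝ≥0∞)) (z, t)) = fun _ => 0 := by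
      funext z
      rw [indicator_of_notMem]
      intro h2
      exact h ⟨h2.1, h2.2.1⟩
    rw [h1, indicator_of_notMem h]
    simp

theorem vol_cn (hVOL : StVOL) (ξ : ℂ) (a b : ℝ) (ha : 0 < a) (hab : a ≤ b) :
    vol (Cn ξ a b) = ENNReal.ofReal (4 * Real.pi * Real.log (b / a)) := by
  have hb : 0 < b := ha.trans_le hab
  have h1 := hVOL.1 ((Cn ξ a b).indicator (fun _ => (1 : ℝ≥0∞)))
    (measurable_const.indicator (cn_meas ξ a b))
  rw [lintegral_indicator (cn_meas ξ a b), setLIntegral_one] at h1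
  rw [h1]
  have h2 : ∫⁻ t in Ioi (0 : ℝ), ENNReal.ofReal (1 / t ^ 3) *
      ∫⁻ z : ℂ, (Cn ξ a b).indicator (fun _ => (1 : ℝ≥0∞)) (z, t) =
      ∫⁻ t in Ioi (0 : ℝ), (Icc a b).indicator (fun t => ENNReal.ofReal (4 * Real.pi * t⁻¹)) t := by
    refine setLIntegral_congr_fun measurableSet_Ioi fun t ht => ?_
    have ht0 : (0 : ℝ) < t := ht
    show ENNReal.ofReal (1 / t ^ 3) *
      ∫⁻ z : ℂ, (Cn ξ a b).indicator (fun _ => (1 : ℝ≥0∞)) (z, t) = _
    rw [slice ξ a b t ht0]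
    by_cases h : t ∈ Icc a b
    · rw [indicator_of_mem h, indicator_of_mem h, ← ENNReal.ofReal_mul (by positivity)]
      congr 1
      field_simp
    · rw [indicator_of_notMem h, indicator_of_notMem h, mul_zero]
  rw [h2, lintegral_indicator measurableSet_Icc, Measure.restrict_restrict measurableSet_Icc,
    inter_eq_left.2 (show Icc a b ⊆ Ioi (0 : ℝ) from fun t ht => ha.trans_le ht.1)]
  have h3 : ContinuousOn (fun t : ℝ => 4 * Real.pi * t⁻¹) (Icc a b) :=
    continuousOn_const.mul (continuousOn_inv₀.mono fun t ht => (ha.trans_le ht.1).ne')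
  rw [← ofReal_integral_eq_lintegral_ofReal h3.integrableOn_Icc
    ((ae_restrict_iff' measurableSet_Icc).2 (ae_of_all _ fun t ht => by
      have : 0 < t := ha.trans_le ht.1
      positivity))]
  congr 1
  rw [integral_Icc_eq_integral_Ioc, ← intervalIntegral.integral_of_le hab,
    intervalIntegral.integral_const_mul, integral_inv_of_pos ha hb]

theorem hSH4 (hVOL : Pool.Agent.Helper86.QA.StVOL) (hPOI : Pool.Agent.Helper86.QA.StPOI)
    (hSB0 : Pool.Agent.Helper85.QT.StSB0) (hSB1 : Pool.Agent.Helper85.QT.StSB1) :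
    Pool.Agent.Helper85.QT.StSH4 := by
  intro Γ _ ρ A B hKD S hS ξ hξ
  obtain ⟨hne, hcl, -, -, hball, hsb⟩ := hSB1 Γ ρ A B hKD
  have hξL : ξ ∉ LS A B := fun h => h (Or.inl hξ)
  set δ : ℝ := Metric.infDist ξ (LS A B) with hδ
  have hδ0 : 0 < δ := (hcl.notMem_iff_infDist_pos hne).1 hξL
  obtain ⟨k, hk, hkd⟩ := hcl.exists_infDist_eq_dist hne ξ
  rw [← hδ, dist_eq_norm] at hkd
  have hdis : Disjoint (Metric.ball ξ δ) (LS A B) := by
    rw [Set.disjoint_left]
    intro y hy hyL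
    have h1 := Metric.infDist_le_dist_of_mem (x := ξ) hyL
    rw [Metric.mem_ball, dist_comm] at hy
    rw [← hδ] at h1
    linarith
  have hAd := hball ξ δ hδ0 hdis
  have hsub : {x : Pt | (x, ξ) ∈ ZZ A B S} ⊆ Cn ξ (δ / (2 * S + 3)) (2 * δ) := by
    rintro x ⟨hx, -, hxS, h4, hkk⟩
    simp only at hx hxS h4 hkk
    have ht : 0 < x.2 := hx
    have hpp : 0 < pp x ξ := (hPOI.2.1 ξ x hx).2
    have hppk : 0 < pp x k := (hPOI.2.1 k x hx).2
    have hden : 0 < ‖x.1 - ξ‖ ^ 2 + x.2 ^ 2 := by positivity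
    -- (a)
    have ha : ‖x.1 - ξ‖ ^ 2 + x.2 ^ 2 ≤ 4 * x.2 ^ 2 := by
      have h5 : 4 * x.2 * pp x ξ = 4 * x.2 ^ 2 / (‖x.1 - ξ‖ ^ 2 + x.2 ^ 2) := by
        unfold pp
        field_simp
      rw [h5, le_div_iff₀ hden, one_mul] at h4
      exact h4
    -- (b)
    have hb : x.2 ≤ 2 * δ := by
      have h5 := hkk k hk
      rw [← hkd] at h5
      have h6 := hPOI.2.2.2.2 ξ x hx
      have h7 := hPOI.2.2.2.2 k x hx
      have h8 : 4 * δ ^ 2 * pp x ξ * pp x k ≤ 4 * δ ^ 2 * (1 / x.2) * (1 / x.2) := by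
        gcongr
      have h9 : 1 ≤ 4 * δ ^ 2 * (1 / x.2) * (1 / x.2) := h5.trans h8
      have h10 : 4 * δ ^ 2 * (1 / x.2) * (1 / x.2) = (2 * δ) ^ 2 / x.2 ^ 2 := by
        field_simp
        ring
      rw [h10, le_div_iff₀ (by positivity), one_mul] at h9
      exact le_of_sq_le_sq h9 (by positivity)
    -- (c)
    have hc : δ / (2 * S + 3) ≤ x.2 := by
      have h5 := ((hsb x hx).2.1 _ hAd).trans hxS
      rw [(hSB0.2.1 ξ δ hδ0).2.2.2.2 x hx, div_le_iff₀ (by positivity)] at h5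
      by_contra hcon
      rw [not_le, lt_div_iff₀ (by positivity)] at hcon
      have h6 : δ ^ 2 ≤ 2 * S * δ * x.2 + 4 * x.2 ^ 2 := by nlinarith
      have h7 : x.2 * (2 * S + 3) * (x.2 * (2 * S + 3)) < δ * δ :=
        mul_lt_mul'' hcon hcon (by positivity) (by positivity)
      have h8 : 2 * S * x.2 * (x.2 * (2 * S + 3)) ≤ 2 * S * x.2 * δ := by
        gcongr
      have h9 : 0 ≤ S * x.2 ^ 2 := by positivity
      have h10 : 0 ≤ S ^ 2 * x.2 ^ 2 := by positivity
      have h11 : 0 < x.2 ^ 2 := by positivity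
      -- multiply by w
      have h12 : δ * (x.2 * (2 * S + 3)) ≤ δ * δ := by gcongr
      have h13 : δ ^ 2 * (2 * S + 3) ≤ 2 * S * δ * (x.2 * (2 * S + 3)) + 4 * x.2 * (x.2 * (2 * S + 3)) := by
        nlinarith [mul_le_mul_of_nonneg_right h6 (by positivity : (0 : ℝ) ≤ 2 * S + 3)]
      have h14 : 2 * S * δ * (x.2 * (2 * S + 3)) ≤ 2 * S * δ * δ := by gcongr
      have h15 : 4 * x.2 * (x.2 * (2 * S + 3)) ≤ 4 * x.2 * δ := by gcongr
      have h16 : 3 * δ ^ 2 ≤ 4 * x.2 * δ := by nlinarith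
      have h17 : 3 * δ ≤ 4 * x.2 := by
        have : δ * (3 * δ) ≤ δ * (4 * x.2) := by nlinarith
        exact le_of_mul_le_mul_left this hδ0
      nlinarith
    refine ⟨hc, hb, ?_⟩
    refine le_of_sq_le_sq ?_ (by positivity)
    nlinarith
  refine (measure_mono hsub).trans ?_
  rw [vol_cn hVOL ξ _ _ (by positivity) ?_]
  · apply le_of_eq
    congr 3
    field_simp
    ring
  · rw [div_le_iff₀ (by positivity)]
    nlinarith

end Pool.Agent.Helper37.QT
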